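import Mathlib
import Pool.Agent.H592W.Thin2

/-!
Poisson thinning for lattice animals with a general mark map `g`.
-/

set_option autoImplicit false
open scoped ENNReal BigOperators
open MeasureTheory ProbabilityTheory
open Pool.Agent.H592

namespace Pool.Agent.Q220.Ani

noncomputable section

variable (g : ℕ → (ℕ → Fin 4) → Finset (V 2))

/-- the law of an animal -/
def nuG (m : PMF ℕ) (A : Finset (V 2)) : ℝ≥0∞ := markLaw m.toMeasure uS2 g {A}

theorem markLaw_le_one (m : PMF ℕ) (B : Set (Finset (V 2))) : markLaw m.toMeasure uS2 g B ≤ 1 := by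
  unfold markLaw
  calc _ ≤ ∫⁻ _, 1 ∂m.toMeasure := lintegral_mono fun n => prob_le_one
    _ = 1 := by simp

theorem markLaw_finsetG (hg : ∀ n, Measurable (g n)) (m : PMF ℕ) (B : Finset (Finset (V 2))) :
    markLaw m.toMeasure uS2 g (B : Set (Finset (V 2))) = ∑ A ∈ B, nuG g m A := by
  unfold nuG markLaw
  rw [← lintegral_finset_sum]
  · refine lintegral_congr fun n => ?_
    have h2 : {s : ℕ → Fin 4 | g n s ∈ (B : Set (Finset (V 2)))}
        = ⋃ A ∈ B, {s | g n s ∈ ({A} : Set (Finset (V 2)))} := by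
      ext s; simp
    rw [h2, measure_biUnion_finset]
    · intro A _ A' _ hne
      refine Set.disjoint_left.mpr fun s hs hs' => hne ?_
      simp only [Set.mem_ofPred_eq, Set.mem_singleton_iff] at hs hs'
      rw [← hs, hs']
    · intro A _
      exact hg n (MeasurableSet.singleton A)
  · intro A _
    exact measurable_from_nat

/-- presence indicators -/
def xiG (k : V 2 × Finset (V 2)) (ω : (Z2 → ℕ) × ((Z2 × ℕ → ℕ) × (Z2 × ℕ × ℕ → Fin 4))) : Bool :=
  open Classical in decide (∃ i < ω.1 (phiInv2 k.1), mark g (phiInv2 k.1, i) ω.2 = k.2)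

theorem xiG_false_iff (k : V 2 × Finset (V 2))
    (ω : (Z2 → ℕ) × ((Z2 × ℕ → ℕ) × (Z2 × ℕ × ℕ → Fin 4))) :
    xiG g k ω = false ↔ ∀ i < ω.1 (phiInv2 k.1), mark g (phiInv2 k.1, i) ω.2 ≠ k.2 := by
  unfold xiG
  simp

theorem xiG_true_iff (k : V 2 × Finset (V 2))
    (ω : (Z2 → ℕ) × ((Z2 × ℕ → ℕ) × (Z2 × ℕ × ℕ → Fin 4))) :
    xiG g k ω = true ↔ ∃ i < ω.1 (phiInv2 k.1), mark g (phiInv2 k.1, i) ω.2 = k.2 := by
  unfold xiG
  simp

/-- joint absence probabilities -/
theorem absentG (hg : ∀ n, Measurable (g n)) (v : NNReal) (m : PMF ℕ)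
    (J : Finset (V 2 × Finset (V 2))) :
    P2 v m (⋂ k ∈ J, {ω | xiG g k ω = false})
      = ∏ k ∈ J, ENNReal.ofReal (Real.exp (-(v * (nuG g m k.2).toReal))) := by
  classical
  have hnufin : ∀ A, nuG g m A ≠ ⊤ := fun A =>
    ne_top_of_le_ne_top (by simp) (markLaw_le_one g m {A})
  set B : Z2 → Finset (Finset (V 2)) := fun x => (J.filter fun k => phiInv2 k.1 = x).image Prod.snd
    with hB
  have hset : (⋂ k ∈ J, {ω | xiG g k ω = false})
      = {ω | ∀ x ∈ J.image (fun k => phiInv2 k.1), ∀ i < ω.1 x,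
          mark g (x, i) ω.2 ∉ ((B x : Finset (Finset (V 2))) : Set (Finset (V 2)))} := by
    ext ω
    simp only [Set.mem_iInter, Set.mem_ofPred_eq, Finset.mem_image, hB, Finset.coe_image,
      Finset.coe_filter, Set.mem_image, not_exists, not_and]
    constructor
    · rintro h x ⟨k, hk, rfl⟩ i hi k' ⟨hk', hx⟩ heq
      have := (xiG_false_iff g k' ω).mp (h k' hk')
      rw [hx] at this
      exact this i hi heq.symm
    · intro h k hk
      rw [xiG_false_iff]
      intro i hi heq
      exact h (phiInv2 k.1) ⟨k, hk, rfl⟩ i hi k ⟨hk, rfl⟩ heq.symm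
  rw [hset]
  unfold P2
  rw [avoid (poissonPMF v).toMeasure m.toMeasure uS2 g hg _
    (fun x => (B x : Set (Finset (V 2)))) (fun x => trivial)]
  have hx : ∀ x ∈ J.image (fun k => phiInv2 k.1),
      ∫⁻ n, (1 - markLaw m.toMeasure uS2 g (B x : Set (Finset (V 2)))) ^ n ∂(poissonPMF v).toMeasure
      = ∏ k ∈ J.filter (fun k => phiInv2 k.1 = x),
        ENNReal.ofReal (Real.exp (-(v * (nuG g m k.2).toReal))) := by
    intro x _
    have hle1 := markLaw_le_one g m (B x : Set (Finset (V 2)))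
    have h1 : markLaw m.toMeasure uS2 g (B x : Set (Finset (V 2)))
        = ENNReal.ofReal (markLaw m.toMeasure uS2 g (B x : Set (Finset (V 2)))).toReal :=
      (ENNReal.ofReal_toReal (ne_top_of_le_ne_top (by simp) hle1)).symm
    rw [h1, poisson_gf v _ ENNReal.toReal_nonneg (by
      have := ENNReal.toReal_mono (by simp) hle1
      simpa using this)]
    rw [markLaw_finsetG g hg m, ENNReal.toReal_sum (fun A _ => hnufin A)]
    rw [← ENNReal.ofReal_prod_of_nonneg (fun k _ => (Real.exp_pos _).le), ← Real.exp_sum]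
    congr 2
    rw [Finset.sum_neg_distrib, ← Finset.mul_sum, hB]
    dsimp only
    rw [Finset.sum_image]
    intro k hk k' hk' heq
    simp only [Finset.coe_filter, Set.mem_ofPred_eq] at hk hk'
    have h2 : k.1 = k'.1 := by
      rw [← phi2_phiInv2 k.1, ← phi2_phiInv2 k'.1, hk.2, hk'.2]
    exact Prod.ext h2 heq
  rw [Finset.prod_congr rfl hx]
  exact Finset.prod_fiberwise_of_maps_to (fun k hk => Finset.mem_image_of_mem _ hk) _

theorem xiG_measurableSet (hg : ∀ n, Measurable (g n)) (k : V 2 × Finset (V 2)) :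
    MeasurableSet {ω | xiG g k ω = false} := by
  have : {ω | xiG g k ω = false} = ⋂ i : ℕ, ({ω | i < ω.1 (phiInv2 k.1)}ᶜ ∪
      {ω | mark g (phiInv2 k.1, i) ω.2 ∈ ({k.2} : Set (Finset (V 2)))}ᶜ) := by
    ext ω
    simp only [Set.mem_ofPred_eq, Set.mem_iInter, Set.mem_union, Set.mem_compl_iff,
      Set.mem_singleton_iff]
    rw [xiG_false_iff]
    constructor
    · intro h i
      by_cases hi : i < ω.1 (phiInv2 k.1)
      · exact Or.inr (h i hi)
      · exact Or.inl hi
    · intro h i hi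
      rcases h i with h1 | h1
      · exact absurd hi h1
      · exact h1
  rw [this]
  refine MeasurableSet.iInter fun i => MeasurableSet.union (MeasurableSet.compl ?_)
    (MeasurableSet.compl ?_)
  · have h1 : Measurable (fun ω : (Z2 → ℕ) × ((Z2 × ℕ → ℕ) × (Z2 × ℕ × ℕ → Fin 4)) =>
      ω.1 (phiInv2 k.1)) := by fun_prop
    exact h1 (measurableSet_Ioi (a := i))
  · exact ((mark_measurable g hg (phiInv2 k.1, i)).comp measurable_snd)
      (MeasurableSet.singleton _)

theorem xiG_measurable (hg : ∀ n, Measurable (g n)) (k : V 2 × Finset (V 2)) :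
    Measurable (xiG g k) := by
  refine measurable_to_bool ?_
  have : xiG g k ⁻¹' {true} = {ω | xiG g k ω = false}ᶜ := by
    ext ω; simp
  rw [this]
  exact (xiG_measurableSet g hg k).compl

theorem xiG_prob (hg : ∀ n, Measurable (g n)) (v : NNReal) (m : PMF ℕ) (k : V 2 × Finset (V 2)) :
    P2 v m {ω | xiG g k ω = true}
      = ENNReal.ofReal (1 - Real.exp (-(v * (nuG g m k.2).toReal))) := by
  have h1 := absentG g hg v m {k}
  simp only [Finset.mem_singleton, Set.iInter_iInter_eq_left, Finset.prod_singleton] at h1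
  have h2 : {ω | xiG g k ω = true} = {ω | xiG g k ω = false}ᶜ := by
    ext ω; simp
  rw [h2, prob_compl_eq_one_sub (xiG_measurableSet g hg k), h1,
    ENNReal.ofReal_sub _ (Real.exp_pos _).le, ENNReal.ofReal_one]

theorem xiG_prob_le (hg : ∀ n, Measurable (g n)) (v : NNReal) (m : PMF ℕ)
    (k : V 2 × Finset (V 2)) :
    P2 v m {ω | xiG g k ω = true} ≤ (v : ℝ≥0∞) * nuG g m k.2 := by
  have hnufin : nuG g m k.2 ≠ ⊤ :=
    ne_top_of_le_ne_top (by simp) (markLaw_le_one g m {k.2})
  rw [xiG_prob g hg]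
  have h1 := Real.add_one_le_exp (-(v * (nuG g m k.2).toReal))
  calc ENNReal.ofReal (1 - Real.exp (-(v * (nuG g m k.2).toReal)))
      ≤ ENNReal.ofReal (v * (nuG g m k.2).toReal) := ENNReal.ofReal_le_ofReal (by linarith)
    _ = v * nuG g m k.2 := by
        rw [ENNReal.ofReal_mul (NNReal.coe_nonneg v), ENNReal.ofReal_toReal hnufin,
          ENNReal.ofReal_coe_nnreal]

theorem xiG_indep (hg : ∀ n, Measurable (g n)) (v : NNReal) (m : PMF ℕ) :
    iIndepFun (xiG g) (P2 v m) := by
  have h1 : iIndepSet (fun k => {ω | xiG g k ω = false}) (P2 v m) := by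
    rw [iIndepSet_iff_meas_biInter (xiG_measurableSet g hg)]
    intro J
    rw [absentG g hg v m J]
    refine Finset.prod_congr rfl fun k _ => ?_
    have h2 := absentG g hg v m {k}
    simp only [Finset.mem_singleton, Set.iInter_iInter_eq_left, Finset.prod_singleton] at h2
    exact h2.symm
  have h3 := iIndepSet.iIndepFun_indicator (β := ℕ) (m := Nat.instMeasurableSpace) h1
  have h4 := h3.comp (fun _ n => decide (n = 0)) (fun _ => measurable_from_nat)
  convert h4 using 1
  funext k ω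
  simp only [Function.comp_apply, Set.indicator_apply, Set.mem_ofPred_eq]
  by_cases h : xiG g k ω = false
  · rw [if_pos h, h]; simp
  · rw [if_neg h]
    simpa using h

end

end Pool.Agent.Q220.Ani
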