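import Mathlib
import Pool.Agent.Q220.Ani.Up
import Pool.Agent.Q220.Ani.Thin

/-!
Rays of random length in the planar lattice.
-/

set_option autoImplicit false
open scoped ENNReal BigOperators
open MeasureTheory ProbabilityTheory
open Pool.Agent.H592

namespace Pool.Agent.Q220.Ani

noncomputable section

/-- the ray of length `l` in direction `s 0` -/
def rayG (l : ℕ) (s : ℕ → Fin 4) : Finset (V 2) :=
  (Finset.range (l + 1)).image fun j : ℕ => fun i => (j : ℤ) * stp (psi2 (s 0)) i

theorem rayG_measurable (l : ℕ) : Measurable (rayG l) := by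
  have : rayG l = (fun e : Fin 4 => (Finset.range (l + 1)).image fun j : ℕ => fun i =>
      (j : ℤ) * stp (psi2 e) i) ∘ (fun s => s 0) := rfl
  rw [this]
  exact (measurable_of_countable _).comp (measurable_pi_apply 0)

theorem zero_mem_rayG (l : ℕ) (s : ℕ → Fin 4) : (0 : V 2) ∈ rayG l s := by
  unfold rayG
  rw [Finset.mem_image]
  exact ⟨0, by simp, by funext i; simp⟩

theorem stp_abs (t : Stp 2) (i : Fin 2) : |stp t i| ≤ 1 := by
  unfold stp
  rw [Pi.single_apply]
  split_ifs <;> simp

theorem stp_other (t : Stp 2) (i : Fin 2) (h : i ≠ t.1) : stp t i = 0 := by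
  unfold stp
  rw [Pi.single_apply, if_neg h]

theorem rayG_small (l r : ℕ) (s : ℕ → Fin 4) (h : l < r) : small r (rayG l s) := by
  intro a ha b hb i
  unfold rayG at ha hb
  rw [Finset.mem_image] at ha hb
  obtain ⟨j, hj, rfl⟩ := ha
  obtain ⟨k, hk, rfl⟩ := hb
  rw [Finset.mem_range] at hj hk
  dsimp only
  rw [← sub_mul, abs_mul]
  have h1 := stp_abs (psi2 (s 0)) i
  have h2 : |(j : ℤ) - k| ≤ l := by rw [abs_le]; omega
  calc |(j : ℤ) - k| * |stp (psi2 (s 0)) i| ≤ l * 1 :=
        mul_le_mul h2 h1 (abs_nonneg _) (by positivity)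
    _ < r := by rw [mul_one]; exact_mod_cast h

/-- a rectangle -/
def rect (c : V 2) (t : Fin 2) (R l : ℕ) : Finset (V 2) :=
  Fintype.piFinset fun i => Finset.Icc (c i - (if i = t then R + l else R : ℕ))
    (c i + (if i = t then R + l else R : ℕ))

theorem card_rect (c : V 2) (t : Fin 2) (R l : ℕ) :
    (rect c t R l).card = (2 * R + 1) * (2 * (R + l) + 1) := by
  unfold rect
  rw [Fintype.card_piFinset, Fin.prod_univ_two]
  simp only [Int.card_Icc]
  have h : ∀ (a : ℤ) (n : ℕ), (a + n + 1 - (a - n)).toNat = 2 * n + 1 := by intro a n; omega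
  rw [h, h]
  fin_cases t <;> simp <;> ring

theorem touches_rect (x c : V 2) (l R : ℕ) (s : ℕ → Fin 4) (h : touches (x, rayG l s) c R) :
    x ∈ rect c (psi2 (s 0)).1 R l := by
  obtain ⟨a, ha, hB⟩ := h
  simp only at ha hB
  unfold rayG at ha
  rw [Finset.mem_image] at ha
  obtain ⟨j, hj, rfl⟩ := ha
  rw [Finset.mem_range] at hj
  rw [mem_Bx] at hB
  unfold rect
  rw [Fintype.mem_piFinset]
  intro i
  have h1 := hB i
  simp only [Pi.add_apply] at h1
  rw [Finset.mem_Icc]
  by_cases hi : i = (psi2 (s 0)).1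
  · rw [if_pos hi]
    have h2 := stp_abs (psi2 (s 0)) i
    have h3 : |(j : ℤ) * stp (psi2 (s 0)) i| ≤ l := by
      rw [abs_mul]
      calc |(j : ℤ)| * |stp (psi2 (s 0)) i| ≤ l * 1 := by
            refine mul_le_mul ?_ h2 (abs_nonneg _) (by positivity)
            rw [Nat.abs_cast]; exact_mod_cast Nat.lt_succ_iff.mp hj
        _ = l := mul_one _
    rw [abs_le] at h1 h3
    push_cast
    constructor <;> linarith [h1.1, h1.2, h3.1, h3.2]
  · rw [if_neg hi]
    rw [stp_other _ _ hi, mul_zero, add_zero, abs_le] at h1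
    constructor <;> linarith [h1.1, h1.2]

theorem tsum_bad_ray (c : V 2) (r l : ℕ) (hr : 1 ≤ r) (s : ℕ → Fin 4) :
    ∑' x, one? (bad c r (x, rayG l s)) ≤ if r ≤ l then ((2499 * r * l : ℕ) : ℝ≥0∞) else 0 := by
  split_ifs with h
  · have h1 : ∀ x : V 2, one? (bad c r (x, rayG l s)) ≤ ind (rect c (psi2 (s 0)).1 (24 * r) l) x := by
      intro x
      by_cases hx : bad c r (x, rayG l s)
      · unfold ind
        rw [if_pos (touches_rect x c l (24 * r) s hx.1)]
        exact one?_le_one _
      · rw [one?_false hx]; exact zero_le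
    calc ∑' x, one? (bad c r (x, rayG l s))
        ≤ ∑' x, ind (rect c (psi2 (s 0)).1 (24 * r) l) x := ENNReal.tsum_le_tsum h1
      _ = (((2 * (24 * r) + 1) * (2 * (24 * r + l) + 1) : ℕ) : ℝ≥0∞) := by
          rw [tsum_ind, card_rect]
      _ ≤ _ := by
          norm_cast
          calc (2 * (24 * r) + 1) * (2 * (24 * r + l) + 1) ≤ (49 * r) * (51 * l) :=
                Nat.mul_le_mul (by omega) (by omega)
            _ = 2499 * r * l := by ring
  · push Not at h
    have : ∀ x, one? (bad c r (x, rayG l s)) = 0 := by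
      intro x
      refine one?_false ?_
      rintro ⟨_, h1⟩
      rcases h1 with h1 | h1
      · exact h1 (zero_mem_rayG l s)
      · exact h1 (rayG_small l r s h)
    simp_rw [this]
    simp

/-- integration of a function of the mark -/
theorem sum_nuG_le (g : ℕ → (ℕ → Fin 4) → Finset (V 2)) (hg : ∀ n, Measurable (g n)) (m : PMF ℕ)
    (F : V 2 × Finset (V 2) → ℝ≥0∞) (B : ℕ → ℝ≥0∞) (hB : ∀ n s, ∑' x, F (x, g n s) ≤ B n) :
    ∑' k : V 2 × Finset (V 2), nuG g m k.2 * F k ≤ ∑' n, m n * B n := by
  rw [ENNReal.tsum_prod', ENNReal.tsum_comm]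
  have h1 : ∀ A : Finset (V 2), ∑' x : V 2, nuG g m A * F (x, A) = nuG g m A * ∑' x, F (x, A) :=
    fun A => ENNReal.tsum_mul_left
  simp only [h1]
  have h2 : ∀ A : Finset (V 2), nuG g m A * ∑' x, F (x, A)
      = ∑' n, (Measure.infinitePi (fun _ : ℕ => uS2)) {s | g n s ∈ ({A} : Set (Finset (V 2)))}
        * m n * ∑' x, F (x, A) := by
    intro A
    unfold nuG markLaw
    rw [lintegral_countable', ENNReal.tsum_mul_right]
    congr 1
    refine tsum_congr fun n => ?_
    rw [PMF.toMeasure_apply_singleton _ _ (MeasurableSet.singleton _)]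
  simp only [h2]
  rw [ENNReal.tsum_comm]
  refine ENNReal.tsum_le_tsum fun n => ?_
  calc ∑' A : Finset (V 2), (Measure.infinitePi (fun _ : ℕ => uS2))
        {s | g n s ∈ ({A} : Set (Finset (V 2)))} * m n * ∑' x, F (x, A)
      ≤ ∑' A : Finset (V 2), (Measure.infinitePi (fun _ : ℕ => uS2))
        {s | g n s ∈ ({A} : Set (Finset (V 2)))} * (m n * B n) := by
        refine ENNReal.tsum_le_tsum fun A => ?_
        by_cases hA : ∃ s, g n s = A
        · obtain ⟨s, rfl⟩ := hA
          rw [mul_assoc]
          gcongr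
          exact hB n s
        · have : {s | g n s ∈ ({A} : Set (Finset (V 2)))} = ∅ := by
            ext s
            simp only [Set.mem_singleton_iff, Set.mem_setOf_eq, Set.mem_empty_iff_false, iff_false]
            exact fun h => hA ⟨s, h⟩
          rw [this]; simp
    _ = (∑' A : Finset (V 2), (Measure.infinitePi (fun _ : ℕ => uS2))
        {s | g n s ∈ ({A} : Set (Finset (V 2)))}) * (m n * B n) := ENNReal.tsum_mul_right
    _ ≤ 1 * (m n * B n) := by
        gcongr
        rw [← measure_iUnion]
        · exact prob_le_one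
        · intro A A' hne
          refine Set.disjoint_left.mpr fun s hs hs' => hne ?_
          simp only [Set.mem_ofPred_eq, Set.mem_singleton_iff] at hs hs'
          rw [← hs, hs']
        · intro A
          exact hg n (MeasurableSet.singleton A)
    _ = m n * B n := one_mul _

theorem sum_inv_sq (r : ℕ) (hr : 1 ≤ r) :
    ∑' j : ℕ, (if r < j then ENNReal.ofReal (1 / (j : ℝ) ^ 2) else 0) ≤ ENNReal.ofReal (1 / r) := by
  refine ENNReal.tsum_le_of_sum_range_le fun n => ?_
  have hr0 : (0 : ℝ) < r := by exact_mod_cast hr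
  have key : ∀ n : ℕ, ∑ j ∈ Finset.range n, (if r < j then 1 / (j : ℝ) ^ 2 else 0)
      ≤ 1 / r - (if r < n then 1 / ((n : ℝ) - 1) else 1 / r) := by
    intro n
    induction n with
    | zero => simp
    | succ n ih =>
      rw [Finset.sum_range_succ]
      by_cases h : r < n
      · have h' : r < n + 1 := by omega
        rw [if_pos h] at ih ⊢
        rw [if_pos h']
        have hn : (1 : ℝ) < n := by exact_mod_cast lt_of_le_of_lt hr h
        push_cast
        have h3 : 1 / (n : ℝ) ^ 2 ≤ 1 / ((n : ℝ) - 1) - 1 / n := by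
          rw [div_sub_div _ _ (by linarith) (by linarith), div_le_div_iff₀ (by positivity)
            (by nlinarith)]
          nlinarith
        have h4 : (n : ℝ) + 1 - 1 = n := by ring
        rw [h4]
        linarith
      · rw [if_neg h] at ih ⊢
        by_cases h' : r < n + 1
        · have : r = n := by omega
          subst this
          rw [if_pos h']
          push_cast
          have h4 : (r : ℝ) + 1 - 1 = r := by ring
          rw [h4]
          linarith
        · rw [if_neg h']
          linarith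
  have h1 : ∑ j ∈ Finset.range n, (if r < j then ENNReal.ofReal (1 / (j : ℝ) ^ 2) else 0)
      = ENNReal.ofReal (∑ j ∈ Finset.range n, (if r < j then 1 / (j : ℝ) ^ 2 else 0)) := by
    rw [ENNReal.ofReal_sum_of_nonneg]
    · refine Finset.sum_congr rfl fun j _ => ?_
      split_ifs <;> simp
    · intro j _
      split_ifs <;> positivity
  rw [h1]
  refine ENNReal.ofReal_le_ofReal ((key n).trans ?_)
  split_ifs with h
  · have hn : (1 : ℝ) < n := by exact_mod_cast lt_of_le_of_lt hr h
    have : 0 ≤ 1 / ((n : ℝ) - 1) := div_nonneg zero_le_one (by linarith)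
    linarith
  · have : 0 < 1 / (r : ℝ) := by positivity
    linarith

/-- truncated first moment from the tails -/
theorem tail_moment (m : PMF ℕ) (C : ℝ) (hC : 0 ≤ C)
    (hT : ∀ l : ℕ, 1 ≤ l → ∑' n, (if l ≤ n then m n else 0) ≤ ENNReal.ofReal (C / (l : ℝ) ^ 2))
    (r : ℕ) (hr : 1 ≤ r) :
    ∑' n, m n * (if r ≤ n then (n : ℝ≥0∞) else 0) ≤ ENNReal.ofReal (2 * C / r) := by
  have hr0 : (0 : ℝ) < r := by exact_mod_cast hr
  have h1 : ∀ n : ℕ, (if r ≤ n then (n : ℝ≥0∞) else 0)
      ≤ (if r ≤ n then (r : ℝ≥0∞) else 0) + ∑' j : ℕ, (if r < j ∧ j ≤ n then (1 : ℝ≥0∞) else 0) := by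
    intro n
    split_ifs with h
    · have h2 : ∑' j : ℕ, (if r < j ∧ j ≤ n then (1 : ℝ≥0∞) else 0)
          = ∑ j ∈ Finset.Ioc r n, (1 : ℝ≥0∞) := by
        rw [tsum_eq_sum (s := Finset.Ioc r n)]
        · refine Finset.sum_congr rfl fun j hj => ?_
          rw [Finset.mem_Ioc] at hj
          rw [if_pos hj]
        · intro j hj
          rw [Finset.mem_Ioc] at hj
          rw [if_neg hj]
      rw [h2]
      simp only [Finset.sum_const, Nat.card_Ioc, nsmul_eq_mul, mul_one]
      have : n = r + (n - r) := by omega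
      conv_lhs => rw [this]
      push_cast
      exact le_rfl
    · exact zero_le
  calc ∑' n, m n * (if r ≤ n then (n : ℝ≥0∞) else 0)
      ≤ ∑' n, (m n * (if r ≤ n then (r : ℝ≥0∞) else 0) +
          ∑' j : ℕ, m n * (if r < j ∧ j ≤ n then (1 : ℝ≥0∞) else 0)) := by
        refine ENNReal.tsum_le_tsum fun n => ?_
        rw [ENNReal.tsum_mul_left, ← mul_add]
        gcongr
        exact h1 n
    _ = ∑' n, m n * (if r ≤ n then (r : ℝ≥0∞) else 0) +
          ∑' j : ℕ, ∑' n, m n * (if r < j ∧ j ≤ n then (1 : ℝ≥0∞) else 0) := by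
        rw [ENNReal.tsum_add, ENNReal.tsum_comm (f := fun n j => m n * _)]
    _ ≤ ENNReal.ofReal (C / r) + ENNReal.ofReal C * ENNReal.ofReal (1 / r) := by
        refine add_le_add ?_ ?_
        · have : ∀ n, m n * (if r ≤ n then (r : ℝ≥0∞) else 0) = (r : ℝ≥0∞) * (if r ≤ n then m n else 0) := by
            intro n; split_ifs
            · rw [mul_comm]
            · simp
          simp_rw [this]
          rw [ENNReal.tsum_mul_left]
          calc (r : ℝ≥0∞) * ∑' n, (if r ≤ n then m n else 0)
              ≤ (r : ℝ≥0∞) * ENNReal.ofReal (C / (r : ℝ) ^ 2) := by gcongr; exact hT r hr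
            _ = ENNReal.ofReal (C / r) := by
                rw [← ENNReal.ofReal_natCast, ← ENNReal.ofReal_mul hr0.le]
                congr 1
                field_simp
        · calc ∑' j : ℕ, ∑' n, m n * (if r < j ∧ j ≤ n then (1 : ℝ≥0∞) else 0)
              ≤ ∑' j : ℕ, ENNReal.ofReal C * (if r < j then ENNReal.ofReal (1 / (j : ℝ) ^ 2) else 0) := by
                refine ENNReal.tsum_le_tsum fun j => ?_
                by_cases hj : r < j
                · rw [if_pos hj]
                  have : ∀ n, m n * (if r < j ∧ j ≤ n then (1 : ℝ≥0∞) else 0)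
                      = (if j ≤ n then m n else 0) := by
                    intro n
                    simp only [hj, true_and]
                    split_ifs <;> simp
                  simp_rw [this]
                  refine (hT j (by omega)).trans ?_
                  rw [← ENNReal.ofReal_mul hC]
                  refine ENNReal.ofReal_le_ofReal (le_of_eq ?_)
                  ring
                · have : ∀ n, m n * (if r < j ∧ j ≤ n then (1 : ℝ≥0∞) else 0) = 0 := by
                    intro n
                    simp [hj]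
                  simp_rw [this]
                  simp
            _ = ENNReal.ofReal C * ∑' j : ℕ, (if r < j then ENNReal.ofReal (1 / (j : ℝ) ^ 2) else 0) :=
                ENNReal.tsum_mul_left
            _ ≤ _ := by gcongr; exact sum_inv_sq r hr
    _ = ENNReal.ofReal (2 * C / r) := by
        rw [← ENNReal.ofReal_mul hC, ← ENNReal.ofReal_add (by positivity) (by positivity)]
        congr 1
        ring

/-- bound of the mean number of bad rays -/
theorem bad_ray_bound (m : PMF ℕ) (C : ℝ) (hC : 0 ≤ C)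
    (hT : ∀ l : ℕ, 1 ≤ l → ∑' n, (if l ≤ n then m n else 0) ≤ ENNReal.ofReal (C / (l : ℝ) ^ 2))
    (c : V 2) (r : ℕ) (hr : 1 ≤ r) :
    ∑' k : V 2 × Finset (V 2), nuG rayG m k.2 * one? (bad c r k) ≤ ENNReal.ofReal (4998 * C) := by
  have hr0 : (0 : ℝ) < r := by exact_mod_cast hr
  refine (sum_nuG_le rayG rayG_measurable m (fun k => one? (bad c r k)) _
    (fun n s => tsum_bad_ray c r n hr s)).trans ?_
  calc ∑' n, m n * (if r ≤ n then ((2499 * r * n : ℕ) : ℝ≥0∞) else 0)
      = ((2499 * r : ℕ) : ℝ≥0∞) * ∑' n, m n * (if r ≤ n then (n : ℝ≥0∞) else 0) := by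
        rw [← ENNReal.tsum_mul_left]
        refine tsum_congr fun n => ?_
        split_ifs
        · push_cast; ring
        · simp
    _ ≤ ((2499 * r : ℕ) : ℝ≥0∞) * ENNReal.ofReal (2 * C / r) := by
        gcongr
        exact tail_moment m C hC hT r hr
    _ = ENNReal.ofReal (4998 * C) := by
        rw [← ENNReal.ofReal_natCast, ← ENNReal.ofReal_mul (by positivity)]
        congr 1
        push_cast
        field_simp
        ring

theorem base_bound (m : PMF ℕ) (c : V 2) :
    ∑' k : V 2 × Finset (V 2), nuG rayG m k.2 * one? (k.1 ∈ Bx c 3) ≤ ENNReal.ofReal 49 := by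
  refine (sum_nuG_le rayG rayG_measurable m (fun k => one? (k.1 ∈ Bx c 3)) (fun _ => 49)
    (fun n s => ?_)).trans ?_
  · have : ∀ x : V 2, one? (x ∈ Bx c 3) = ind (Bx c 3) x := by
      intro x
      unfold one? ind
      by_cases hx : x ∈ Bx c 3
      · simp [hx]
      · simp [hx]
    simp_rw [this]
    rw [tsum_ind, card_Bx]
    norm_num
  · rw [ENNReal.tsum_mul_right, m.tsum_coe]
    norm_num

end

end Pool.Agent.Q220.Ani
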